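import Pool.Agent.Q21.DW.Real

set_option autoImplicit false

/-! A property of natural numbers with few exceptions holds at all integers near `c α ^ (r k)`, for all real
`α > 1` outside a set of small Hausdorff dimension. -/

namespace Pool.Agent.Q116.RP

open MeasureTheory Filter Set ENNReal NNReal Topology Metric

open Pool.Agent.Q21.AW (hc)
open Pool.Agent.Q21.DW (PS card_mono dim_le_of_null)

lemma pow_sub_pow_ge {a x y r : ℝ} (ha : 0 < a) (hr : 1 ≤ r) (hx : a ≤ x) (hxy : x ≤ y) :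
    a ^ (r - 1) * (y - x) ≤ y ^ r - x ^ r := by
  have hx0 : 0 < x := by linarith
  have hy0 : 0 < y := by linarith
  have e1 : y ^ r = y ^ (r - 1) * y := by
    rw [← Real.rpow_add_one hy0.ne']; congr 1; ring
  have e2 : x ^ r = x ^ (r - 1) * x := by
    rw [← Real.rpow_add_one hx0.ne']; congr 1; ring
  have h1 : x ^ (r - 1) ≤ y ^ (r - 1) := Real.rpow_le_rpow hx0.le hxy (by linarith)
  have h2 : a ^ (r - 1) ≤ x ^ (r - 1) := Real.rpow_le_rpow ha.le hx (by linarith)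
  rw [e1, e2]
  have h3 : a ^ (r - 1) * (y - x) ≤ x ^ (r - 1) * (y - x) := mul_le_mul_of_nonneg_right h2 (by linarith)
  have h4 : x ^ (r - 1) * y ≤ y ^ (r - 1) * y := mul_le_mul_of_nonneg_right h1 hy0.le
  linarith

lemma abs_sub_le_of_pow {a b c r m w x y : ℝ} (ha : 1 < a) (hc : 0 < c) (hr : 1 ≤ r)
    (hx : a ≤ x ∧ x ≤ b ∧ |m - c * x ^ r| ≤ w) (hy : a ≤ y ∧ y ≤ b ∧ |m - c * y ^ r| ≤ w) (hxy : x ≤ y) :
    y - x ≤ 2 * a / c * (w / a ^ r) := by
  have ha0 : 0 < a := by linarith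
  have h1 := pow_sub_pow_ge ha0 hr hx.1 hxy
  have h2 := (abs_le.1 hx.2.2).2
  have h3 := (abs_le.1 hy.2.2).1
  have h4 : c * (y ^ r - x ^ r) ≤ 2 * w := by nlinarith
  have h5 : c * (a ^ (r - 1) * (y - x)) ≤ 2 * w := (mul_le_mul_of_nonneg_left h1 hc.le).trans h4
  have e : a ^ r = a ^ (r - 1) * a := by
    rw [← Real.rpow_add_one ha0.ne']; congr 1; ring
  have hp : 0 < a ^ (r - 1) := Real.rpow_pos_of_pos ha0 _
  rw [e]
  have e2 : 2 * a / c * (w / (a ^ (r - 1) * a)) = 2 * w / (c * a ^ (r - 1)) := by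
    field_simp
  rw [e2, le_div_iff₀ (by positivity)]
  linarith

lemma ediam_pow {a b c r m w : ℝ} (ha : 1 < a) (hc : 0 < c) (hr : 1 ≤ r) :
    ediam {α : ℝ | a ≤ α ∧ α ≤ b ∧ |m - c * α ^ r| ≤ w} ≤ ENNReal.ofReal (2 * a / c * (w / a ^ r)) := by
  refine Metric.ediam_le fun x hx y hy => ?_
  rw [edist_dist, Real.dist_eq]
  refine ENNReal.ofReal_le_ofReal ?_
  rcases le_total x y with h | h
  · rw [abs_sub_comm, abs_of_nonneg (by linarith)]
    exact abs_sub_le_of_pow ha hc hr hx hy h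
  · rw [abs_of_nonneg (by linarith)]
    exact abs_sub_le_of_pow ha hc hr hy hx h

theorem pow_null_interval (B : ℕ → Prop) (θ t s a b c η : ℝ) (h0 : 0 ≤ θ) (ht : θ < t) (hs : 0 < s)
    (h : PS θ B) (ha : 1 < a) (hab : a ≤ b) (hc0 : 0 < c) (hη1 : η ≤ 1)
    (r : ℕ → ℝ) (hr : ∀ k, 1 ≤ r k)
    (hsum : Summable (fun k => (b ^ r k) ^ t * (b ^ (η * r k) / a ^ (r k)) ^ s)) (hη : 0 ≤ η) :
    μH[s] {α : ℝ | a ≤ α ∧ α ≤ b ∧ ¬ ∀ᶠ k : ℕ in atTop, ∀ m : ℕ,
      |(m : ℝ) - c * α ^ (r k)| ≤ α ^ (η * r k) → m ≠ 0 ∧ ¬ B m} = 0 := by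
  classical
  obtain ⟨C, hC⟩ := h t ht
  have ht0 : 0 < t := by linarith
  have ha0 : 0 < a := by linarith
  have hb1 : 1 < b := by linarith
  have hb0 : 0 < b := by linarith
  have hV : ∀ k, 1 ≤ b ^ r k := fun k => Real.one_le_rpow hb1.le (by linarith [hr k])
  set F : ℕ → Finset ℕ := fun k => insert 0 ((Finset.Icc 1 ⌈(c + 1) * b ^ r k⌉₊).filter B) with hF
  have hcard : ∀ k, ((F k).card : ℝ) ≤ (1 + |C|) * (2 * (c + 1)) ^ t * (b ^ r k) ^ t := by
    intro k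
    set N : ℕ := ⌈(c + 1) * b ^ r k⌉₊ with hN
    have h1 : 1 ≤ (c + 1) * b ^ r k := by nlinarith [hV k]
    have hNge : (c + 1) * b ^ r k ≤ N := Nat.le_ceil _
    have hN1 : (1 : ℝ) ≤ N := h1.trans hNge
    have hN1' : 1 ≤ N := by exact_mod_cast hN1
    have hNle : (N : ℝ) ≤ 2 * (c + 1) * b ^ r k := by
      have h7 := Nat.ceil_lt_add_one (show 0 ≤ (c + 1) * b ^ r k by linarith)
      rw [← hN] at h7
      linarith
    have h2 := hC N hN1'
    have h3 : ((F k).card : ℝ) ≤ (((Finset.Icc 1 N).filter B).card : ℝ) + 1 := by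
      exact_mod_cast Finset.card_insert_le _ _
    have h11 : (N : ℝ) ^ t ≤ (2 * (c + 1)) ^ t * (b ^ r k) ^ t := by
      rw [← Real.mul_rpow (by positivity) (by linarith [hV k])]
      exact Real.rpow_le_rpow (by positivity) hNle ht0.le
    have h12 : (1 : ℝ) ≤ (N : ℝ) ^ t := Real.one_le_rpow hN1 ht0.le
    have h13 : C * (N : ℝ) ^ t ≤ |C| * (N : ℝ) ^ t :=
      mul_le_mul_of_nonneg_right (le_abs_self C) (by positivity)
    have h14 : (((Finset.Icc 1 N).filter B).card : ℝ) ≤ C * (N : ℝ) ^ t :=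
      le_trans (Nat.cast_le.2 (card_mono fun n hn h5 => ⟨hn, h5⟩)) h2
    calc ((F k).card : ℝ) ≤ |C| * (N : ℝ) ^ t + (N : ℝ) ^ t := by linarith
      _ = (1 + |C|) * (N : ℝ) ^ t := by ring
      _ ≤ (1 + |C|) * ((2 * (c + 1)) ^ t * (b ^ r k) ^ t) :=
          mul_le_mul_of_nonneg_left h11 (by positivity)
      _ = (1 + |C|) * (2 * (c + 1)) ^ t * (b ^ r k) ^ t := by ring
  have h1 := hc (X := ℝ) (ι := Σ k : ℕ, (F k : Set ℕ)) hs
    (fun p => {α : ℝ | a ≤ α ∧ α ≤ b ∧ |((p.2 : ℕ) : ℝ) - c * α ^ (r p.1)| ≤ b ^ (η * r p.1)}) ?_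
  · refine measure_mono_null ?_ h1
    rintro α ⟨hα1, hα2, hα⟩
    have hα0 : 0 < α := by linarith
    rw [Filter.not_eventually] at hα
    have h3 := Nat.frequently_atTop_iff_infinite.1 hα
    have hch : ∀ k : {k : ℕ | ¬ ∀ m : ℕ, |(m : ℝ) - c * α ^ (r k)| ≤ α ^ (η * r k) → m ≠ 0 ∧ ¬ B m},
        ∃ m : (F k.1 : Set ℕ), |((m : ℕ) : ℝ) - c * α ^ (r k.1)| ≤ b ^ (η * r k.1) := by
      rintro ⟨k, hk⟩
      have hrk : 0 ≤ r k := by linarith [hr k]
      have hk' : ¬ ∀ m : ℕ, |(m : ℝ) - c * α ^ (r k)| ≤ α ^ (η * r k) → m ≠ 0 ∧ ¬ B m := hk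
      push Not at hk'
      obtain ⟨m, hm1, hm2⟩ := hk'
      have hw : α ^ (η * r k) ≤ b ^ (η * r k) :=
        Real.rpow_le_rpow hα0.le hα2 (mul_nonneg hη hrk)
      refine ⟨⟨m, ?_⟩, hm1.trans hw⟩
      show m ∈ (F k : Set ℕ)
      rw [hF, Finset.mem_coe, Finset.mem_insert]
      rcases Nat.eq_zero_or_pos m with h4 | h4
      · exact Or.inl h4
      · right
        rw [Finset.mem_filter, Finset.mem_Icc]
        refine ⟨⟨h4, ?_⟩, hm2 (by omega)⟩
        have h5 := (abs_le.1 hm1).2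
        have h6 : c * α ^ (r k) ≤ c * b ^ (r k) :=
          mul_le_mul_of_nonneg_left (Real.rpow_le_rpow hα0.le hα2 hrk) hc0.le
        have h9 : b ^ (η * r k) ≤ b ^ (r k) :=
          Real.rpow_le_rpow_of_exponent_le hb1.le (by nlinarith)
        have h7 : (m : ℝ) ≤ (c + 1) * b ^ r k := by linarith
        have h8 := h7.trans (Nat.le_ceil _)
        exact_mod_cast h8
    choose mm hmm using hch
    have h4 := h3.to_subtype
    refine Set.infinite_of_injective_forall_mem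
      (f := fun k : {k : ℕ | ¬ ∀ m : ℕ, |(m : ℝ) - c * α ^ (r k)| ≤ α ^ (η * r k) → m ≠ 0 ∧ ¬ B m} =>
        (⟨k.1, mm k⟩ : Σ k : ℕ, (F k : Set ℕ))) ?_ ?_
    · intro x y hxy
      exact Subtype.ext (congrArg Sigma.fst hxy)
    · intro k
      exact ⟨hα1, hα2, hmm k⟩
  · have hterm : ∀ p : (Σ k : ℕ, (F k : Set ℕ)),
        (ediam {α : ℝ | a ≤ α ∧ α ≤ b ∧ |((p.2 : ℕ) : ℝ) - c * α ^ (r p.1)| ≤ b ^ (η * r p.1)}) ^ s ≤
          (ENNReal.ofReal (2 * a / c * (b ^ (η * r p.1) / a ^ (r p.1)))) ^ s := fun p =>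
      ENNReal.rpow_le_rpow (ediam_pow ha hc0 (hr _)) hs.le
    refine ne_top_of_le_ne_top ?_ (ENNReal.tsum_le_tsum hterm)
    rw [ENNReal.tsum_sigma']
    have h6 : ∀ k : ℕ, (∑' _ : (F k : Set ℕ), (ENNReal.ofReal (2 * a / c * (b ^ (η * r k) / a ^ (r k)))) ^ s) ≤
        ENNReal.ofReal ((1 + |C|) * (2 * (c + 1)) ^ t * (2 * a / c) ^ s *
          ((b ^ r k) ^ t * (b ^ (η * r k) / a ^ (r k)) ^ s)) := by
      intro k
      have h7 : 0 ≤ b ^ (η * r k) / a ^ (r k) := by positivity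
      rw [tsum_fintype, Finset.sum_const, nsmul_eq_mul, Finset.card_univ]
      have h8 : Fintype.card (F k : Set ℕ) = (F k).card := by simp
      rw [h8, ENNReal.ofReal_rpow_of_nonneg (by positivity) hs.le, ← ENNReal.ofReal_natCast,
        ← ENNReal.ofReal_mul (Nat.cast_nonneg _)]
      refine ENNReal.ofReal_le_ofReal ?_
      rw [Real.mul_rpow (by positivity) h7]
      refine (mul_le_mul_of_nonneg_right (hcard k) (by positivity)).trans (le_of_eq ?_)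
      ring
    refine ne_top_of_le_ne_top ?_ (ENNReal.tsum_le_tsum h6)
    exact (hsum.mul_left _).tsum_ofReal_ne_top

theorem pow_null (B : ℕ → Prop) (θ s c η : ℝ) (h0 : 0 ≤ θ) (h : PS θ B) (hc0 : 0 < c) (hη : 0 ≤ η)
    (hη1 : η < 1) (hs : θ / (1 - η) < s) (r : ℕ → ℝ)
    (hr : ∀ δ : ℝ, 0 < δ → Summable fun k => Real.exp (-(δ * r k))) :
    μH[s] {α : ℝ | 1 < α ∧ ¬ ∀ᶠ k : ℕ in atTop, ∀ m : ℕ,
      |(m : ℝ) - c * α ^ (r k)| ≤ α ^ (η * r k) → m ≠ 0 ∧ ¬ B m} = 0 := by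
  have h1η : 0 < 1 - η := by linarith
  have hs0 : 0 < s := lt_of_le_of_lt (by positivity) hs
  rw [div_lt_iff₀ h1η] at hs
  obtain ⟨t, ht, hts⟩ := exists_between hs
  have ht0 : 0 < t := by linarith
  have hq0 : 0 < t + s * η := by positivity
  have hq : 1 < s / (t + s * η) := by rw [one_lt_div hq0]; linarith
  obtain ⟨ρ, hρ1, hρ⟩ := exists_between hq
  rw [lt_div_iff₀ hq0] at hρ
  have hρ0 : 0 < ρ := by linarith
  set r' : ℕ → ℝ := fun k => max (r k) 1 with hr'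
  have hr1 : ∀ k, 1 ≤ r' k := fun k => le_max_right _ _
  have hev : ∀ᶠ k in atTop, r' k = r k := by
    have h1 := (hr 1 one_pos).tendsto_atTop_zero.eventually_lt_const (Real.exp_pos (-1))
    filter_upwards [h1] with k hk
    have h2 := Real.exp_lt_exp.1 hk
    exact max_eq_left (by linarith)
  have hsum' : ∀ δ : ℝ, 0 < δ → Summable fun k => Real.exp (-(δ * r' k)) := by
    intro δ hδ
    refine Summable.of_nonneg_of_le (fun k => (Real.exp_pos _).le) (fun k => ?_) (hr δ hδ)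
    refine Real.exp_le_exp.2 ?_
    have : r k ≤ r' k := le_max_left _ _
    nlinarith
  have key : ∀ j : ℤ, μH[s] {α : ℝ | Real.exp (ρ ^ j) ≤ α ∧ α ≤ Real.exp (ρ ^ (j + 1)) ∧
      ¬ ∀ᶠ k : ℕ in atTop, ∀ m : ℕ, |(m : ℝ) - c * α ^ (r' k)| ≤ α ^ (η * r' k) → m ≠ 0 ∧ ¬ B m} = 0 := by
    intro j
    have hL : 0 < ρ ^ j := zpow_pos hρ0 j
    have hb : ρ ^ (j + 1) = ρ * ρ ^ j := by rw [zpow_add_one₀ hρ0.ne', mul_comm]
    refine pow_null_interval B θ t s _ _ c η h0 ht hs0 h (Real.one_lt_exp_iff.2 hL)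
      (Real.exp_le_exp.2 ?_) hc0 hη1.le r' hr1 ?_ hη
    · rw [hb]; nlinarith
    · have e : ∀ k, (Real.exp (ρ ^ (j + 1)) ^ r' k) ^ t *
          (Real.exp (ρ ^ (j + 1)) ^ (η * r' k) / Real.exp (ρ ^ j) ^ (r' k)) ^ s =
          Real.exp (-(ρ ^ j * (s - ρ * (t + s * η)) * r' k)) := by
        intro k
        rw [← Real.exp_mul, ← Real.exp_mul, ← Real.exp_mul, ← Real.exp_mul, ← Real.exp_sub, ← Real.exp_mul,
          ← Real.exp_add, hb]
        congr 1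
        ring
      simp only [e]
      exact hsum' _ (mul_pos hL (by linarith))
  refine measure_mono_null ?_ (measure_iUnion_null key)
  rintro α ⟨hα1, hα⟩
  have hlog : 0 < Real.log α := Real.log_pos hα1
  obtain ⟨j, hj1, hj2⟩ := exists_mem_Ico_zpow hlog hρ1
  refine mem_iUnion.2 ⟨j, ?_, ?_, fun hcon => hα ?_⟩
  · rw [← Real.exp_log (show 0 < α by linarith)]
    exact Real.exp_le_exp.2 hj1
  · rw [← Real.exp_log (show 0 < α by linarith)]
    exact Real.exp_le_exp.2 hj2.le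
  · filter_upwards [hcon, hev] with k hk1 hk2 m hm
    rw [hk2] at hk1
    exact hk1 m hm

/-- The property `P` of natural numbers holds near the powers of real numbers, with the exponent `s` of the
exceptions. Here `Γ` is a countable set of positive real numbers, `0 ≤ η < 1`, and `r k` are real exponents with
`∑ exp (- δ r k) < ∞` for every `δ > 0` (for example `r k = k`, or any faster sequence). -/
structure RealPowers (s : ℝ) (P : ℕ → Prop) : Prop where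
  /-- the set of the real numbers `α > 1` such that for some `c ∈ Γ` there are infinitely many `k` with a
  natural number `m`, `|m - c α ^ (r k)| ≤ α ^ (η r k)`, without the property `P`, has Hausdorff dimension
  at most `s / (1 - η)` -/
  dim : ∀ (Γ : Set ℝ) (η : ℝ) (r : ℕ → ℝ), Γ.Countable → (∀ c ∈ Γ, 0 < c) → 0 ≤ η → η < 1 →
    (∀ δ : ℝ, 0 < δ → Summable fun k => Real.exp (-(δ * r k))) →
    dimH {α : ℝ | 1 < α ∧ ¬ ∀ c ∈ Γ, ∀ᶠ k : ℕ in atTop, ∀ m : ℕ,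
      |(m : ℝ) - c * α ^ (r k)| ≤ α ^ (η * r k) → P m} ≤ ENNReal.ofReal (s / (1 - η))
  /-- if `η < 1 - s`, then for almost every real `α > 1`, every `c ∈ Γ` and every large `k`, all natural numbers
  `m` with `|m - c α ^ (r k)| ≤ α ^ (η r k)` have the property `P` -/
  almost_all : ∀ (Γ : Set ℝ) (η : ℝ) (r : ℕ → ℝ), Γ.Countable → (∀ c ∈ Γ, 0 < c) → 0 ≤ η → η < 1 - s →
    (∀ δ : ℝ, 0 < δ → Summable fun k => Real.exp (-(δ * r k))) →
    ∀ᵐ α : ℝ, 1 < α → ∀ c ∈ Γ, ∀ᶠ k : ℕ in atTop, ∀ m : ℕ,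
      |(m : ℝ) - c * α ^ (r k)| ≤ α ^ (η * r k) → P m

theorem countable_null {s θ η : ℝ} (h0 : 0 ≤ θ) {P B : ℕ → Prop} (h : PS θ B)
    (hB : ∀ n, n ≠ 0 → ¬ B n → P n) (Γ : Set ℝ) (r : ℕ → ℝ) (hΓ : Γ.Countable)
    (hpos : ∀ c ∈ Γ, 0 < c) (hη : 0 ≤ η) (hη1 : η < 1) (hs : θ / (1 - η) < s)
    (hr : ∀ δ : ℝ, 0 < δ → Summable fun k => Real.exp (-(δ * r k))) :
    μH[s] {α : ℝ | 1 < α ∧ ¬ ∀ c ∈ Γ, ∀ᶠ k : ℕ in atTop, ∀ m : ℕ,
      |(m : ℝ) - c * α ^ (r k)| ≤ α ^ (η * r k) → P m} = 0 := by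
  have := hΓ.to_subtype
  refine measure_mono_null ?_ (measure_iUnion_null fun c : Γ =>
    pow_null B θ s c η h0 h (hpos c c.2) hη hη1 hs r hr)
  rintro α ⟨h1, h2⟩
  by_contra hcon
  refine h2 fun c hcΓ => ?_
  rw [mem_iUnion, not_exists] at hcon
  by_contra h4
  refine hcon ⟨c, hcΓ⟩ ⟨h1, fun h5 => h4 ?_⟩
  filter_upwards [h5] with k hk m hm
  exact hB m (hk m hm).1 (hk m hm).2

theorem realPowers_of {s : ℝ} (hs : 0 ≤ s) {P B : ℕ → Prop} (h : PS s B)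
    (hB : ∀ n, n ≠ 0 → ¬ B n → P n) : RealPowers s P where
  dim := by
    intro Γ η r hΓ hpos hη hη1 hr
    have h1η : 0 < 1 - η := by linarith
    rcases lt_or_ge (s / (1 - η)) 1 with h1 | h1
    · exact dim_le_of_null _ (by positivity) h1 _ fun s' hs' _ =>
        countable_null hs h hB Γ r hΓ hpos hη hη1 hs' hr
    · refine le_trans (dimH_mono (subset_univ _)) ?_
      rw [Real.dimH_univ]
      rw [← ENNReal.ofReal_one]
      exact ENNReal.ofReal_le_ofReal h1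
  almost_all := by
    intro Γ η r hΓ hpos hη hη1 hr
    have h1η : 0 < 1 - η := by linarith
    have h1 := countable_null (s := 1) (η := η) hs h hB Γ r hΓ hpos hη (by linarith)
      (by rw [div_lt_one h1η]; linarith) hr
    rw [hausdorffMeasure_real] at h1
    rw [ae_iff]
    refine measure_mono_null ?_ h1
    intro α hα
    have hα' : ¬ (1 < α → ∀ c ∈ Γ, ∀ᶠ k : ℕ in atTop, ∀ m : ℕ,
      |(m : ℝ) - c * α ^ (r k)| ≤ α ^ (η * r k) → P m) := hα
    rw [Classical.not_imp] at hα'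
    exact hα'

end Pool.Agent.Q116.RP
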