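import Pool.Agent.Q116.RP.Core
import Pool.Agent.Q44.Log

set_option autoImplicit false

/-! A property of natural numbers whose exceptions up to `N` are fewer than `N` divided by any power of `log N`
holds at all integers near `c α ^ (r k)`, for almost all real `α > 1`. -/

namespace Pool.Agent.Q116.RP

open MeasureTheory Filter Set ENNReal NNReal Topology Metric

open Pool.Agent.Q21.AW (hc)
open Pool.Agent.Q44.CF (LogFew)

lemma ediam_near {b c r n w : ℝ} (hc : 0 < c) (hr : 1 ≤ r) (hn : 0 < n) (hwn : 2 * w ≤ n) (hb : 0 < b) :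
    ediam {α : ℝ | 1 ≤ α ∧ α ≤ b ∧ |n - c * α ^ r| ≤ w} ≤ ENNReal.ofReal (4 * b * (w / n)) := by
  have key : ∀ x y : ℝ, (1 ≤ x ∧ x ≤ b ∧ |n - c * x ^ r| ≤ w) → (1 ≤ y ∧ y ≤ b ∧ |n - c * y ^ r| ≤ w) →
      x ≤ y → y - x ≤ 4 * b * (w / n) := by
    intro x y hx hy hxy
    have hx0 : 0 < x := by linarith [hx.1]
    have h1 := pow_sub_pow_ge hx0 hr le_rfl hxy
    have h2 := (abs_le.1 hx.2.2)
    have h3 := (abs_le.1 hy.2.2)
    have h4 : c * (y ^ r - x ^ r) ≤ 2 * w := by nlinarith [h2.1, h2.2, h3.1, h3.2]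
    have e : x ^ r = x ^ (r - 1) * x := by
      rw [← Real.rpow_add_one hx0.ne']; congr 1; ring
    have h5 : n / 2 ≤ c * x ^ r := by linarith [h2.2]
    have hp : 0 < x ^ (r - 1) := Real.rpow_pos_of_pos hx0 _
    have h6 : n / 2 ≤ c * x ^ (r - 1) * b := by
      rw [e] at h5
      have : c * (x ^ (r - 1) * x) ≤ c * x ^ (r - 1) * b := by
        rw [mul_assoc]
        exact mul_le_mul_of_nonneg_left (mul_le_mul_of_nonneg_left hx.2.1 hp.le) hc.le
      linarith
    have h7 : c * x ^ (r - 1) * (y - x) ≤ 2 * w := by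
      have := mul_le_mul_of_nonneg_left h1 hc.le
      linarith
    have h8 : n / 2 * (y - x) ≤ b * (2 * w) := by
      calc n / 2 * (y - x) ≤ c * x ^ (r - 1) * b * (y - x) := mul_le_mul_of_nonneg_right h6 (by linarith)
        _ = b * (c * x ^ (r - 1) * (y - x)) := by ring
        _ ≤ b * (2 * w) := mul_le_mul_of_nonneg_left h7 hb.le
    have e2 : 4 * b * (w / n) = (4 * b * w) / n := by ring
    rw [e2, le_div_iff₀ hn]
    nlinarith
  refine Metric.ediam_le fun x hx y hy => ?_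
  rw [edist_dist, Real.dist_eq]
  refine ENNReal.ofReal_le_ofReal ?_
  rcases le_total x y with h | h
  · rw [abs_sub_comm, abs_of_nonneg (by linarith)]
    exact key x y hx hy h
  · rw [abs_of_nonneg (by linarith)]
    exact key y x hy hx h

theorem log_null_interval (B : ℕ → Prop) (a b c K V : ℝ) (h : LogFew B) (ha : 1 < a) (hab : a ≤ b)
    (hc0 : 0 < c) (hK : 0 ≤ K) (hV : 0 < V) (r : ℕ → ℝ) (hr : ∀ k, 1 ≤ r k)
    (hsum : Summable (fun k => r k ^ (-V))) :
    volume {α : ℝ | a ≤ α ∧ α ≤ b ∧ ¬ ∀ᶠ k : ℕ in atTop, ∀ m : ℕ,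
      |(m : ℝ) - c * α ^ (r k)| ≤ r k ^ K → m ≠ 0 ∧ ¬ B m} = 0 := by
  classical
  rw [← hausdorffMeasure_real]
  set U : ℝ := K + V + 2 with hU
  obtain ⟨C, hC⟩ := h U
  have hb0 : 0 < b := by linarith
  have hla : 0 < Real.log a := Real.log_pos ha
  have hl2 : 0 < Real.log 2 := Real.log_pos (by norm_num)
  have hl21 : Real.log 2 ≤ 1 := by have := Real.log_two_lt_d9; linarith
  set κ : ℝ := Real.log a / 2 with hκ
  have hκ0 : 0 < κ := by positivity
  have hr0 : ∀ k, 0 < r k := fun k => by linarith [hr k]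
  -- the exponents tend to infinity
  have hlarge : Tendsto r atTop atTop := by
    rw [Filter.tendsto_atTop]
    intro M
    have hM : 0 < max M 1 := lt_max_of_lt_right one_pos
    have h1 := hsum.tendsto_atTop_zero.eventually_lt_const (Real.rpow_pos_of_pos hM (-V))
    filter_upwards [h1] with k hk
    by_contra hcon
    push Not at hcon
    have h2 := (Real.rpow_le_rpow_iff_of_neg hM (hr0 k) (show -V < 0 by linarith)).2
      (hcon.le.trans (le_max_left M 1))
    linarith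
  have hw1 : ∀ᶠ k in atTop, 4 * r k ^ K ≤ c * a ^ r k := by
    have h1 := (isLittleO_rpow_exp_pos_mul_atTop K hla).def (show (0 : ℝ) < c / 4 by positivity)
    filter_upwards [hlarge.eventually h1] with k hk
    rw [Real.norm_eq_abs, Real.norm_eq_abs, abs_of_pos (Real.rpow_pos_of_pos (hr0 k) _),
      abs_of_pos (Real.exp_pos _), Real.exp_mul, Real.exp_log (by linarith)] at hk
    linarith
  have hw2 : ∀ᶠ k in atTop, -(2 * Real.log (c / 2)) ≤ r k * Real.log a := by
    have h1 : Tendsto (fun k => r k * Real.log a) atTop atTop := hlarge.atTop_mul_const hla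
    exact h1.eventually_ge_atTop _
  set F : ℕ → Finset ℕ := fun j => (Finset.Ico (2 ^ j) (2 ^ (j + 1))).filter B with hF
  set E : (Σ _ : ℕ, Σ j : ℕ, (F j : Set ℕ)) → Set ℝ := fun p =>
    {α : ℝ | (1 ≤ α ∧ α ≤ b ∧ |((p.2.2 : ℕ) : ℝ) - c * α ^ (r p.1)| ≤ r p.1 ^ K) ∧
      2 * r p.1 ^ K ≤ ((p.2.2 : ℕ) : ℝ) ∧ κ * r p.1 ≤ (p.2.1 : ℝ) + 1} with hE
  have h1 := hc (X := ℝ) (ι := Σ _ : ℕ, Σ j : ℕ, (F j : Set ℕ)) one_pos E ?_
  · refine measure_mono_null ?_ h1
    rintro α ⟨hα1, hα2, hα⟩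
    have hα0 : 0 < α := by linarith
    rw [Filter.not_eventually] at hα
    have h2 : ∃ᶠ k in atTop, (¬ ∀ m : ℕ, |(m : ℝ) - c * α ^ (r k)| ≤ r k ^ K → m ≠ 0 ∧ ¬ B m) ∧
        (4 * r k ^ K ≤ c * a ^ r k ∧ -(2 * Real.log (c / 2)) ≤ r k * Real.log a) :=
      hα.and_eventually (hw1.and hw2)
    have h3 := Nat.frequently_atTop_iff_infinite.1 h2
    set I : Set ℕ := {k : ℕ | (¬ ∀ m : ℕ, |(m : ℝ) - c * α ^ (r k)| ≤ r k ^ K → m ≠ 0 ∧ ¬ B m) ∧
        (4 * r k ^ K ≤ c * a ^ r k ∧ -(2 * Real.log (c / 2)) ≤ r k * Real.log a)} with hI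
    have hch : ∀ k : I, ∃ x : (Σ j : ℕ, (F j : Set ℕ)), α ∈ E ⟨k.1, x⟩ := by
      rintro ⟨k, hk, hk1, hk2⟩
      push Not at hk
      obtain ⟨m, hm1, hm2⟩ := hk
      have hrk := hr k
      have hwp : 0 < r k ^ K := Real.rpow_pos_of_pos (hr0 k) _
      have h5 := (abs_le.1 hm1).1
      have h6 : a ^ r k ≤ α ^ r k := Real.rpow_le_rpow (by linarith) hα1 (by linarith)
      have h7 : c * a ^ r k ≤ c * α ^ r k := mul_le_mul_of_nonneg_left h6 hc0.le
      have hap : 0 < a ^ r k := Real.rpow_pos_of_pos (by linarith) _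
      have hmge : c / 2 * a ^ r k ≤ m := by linarith
      have hm0 : (0 : ℝ) < m := lt_of_lt_of_le (by positivity) hmge
      have hm0' : m ≠ 0 := by
        rintro rfl
        simp at hm0
      have hB : B m := hm2 hm0'
      have hj1 : 2 ^ Nat.log 2 m ≤ m := Nat.pow_log_le_self 2 hm0'
      have hj2 : m < 2 ^ (Nat.log 2 m + 1) := Nat.lt_pow_succ_log_self (by norm_num) m
      have hmF : m ∈ (F (Nat.log 2 m) : Set ℕ) := by
        rw [hF, Finset.mem_coe, Finset.mem_filter, Finset.mem_Ico]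
        exact ⟨⟨hj1, hj2⟩, hB⟩
      refine ⟨⟨Nat.log 2 m, ⟨m, hmF⟩⟩, ⟨by linarith, hα2, hm1⟩, ?_, ?_⟩
      · show 2 * r k ^ K ≤ (m : ℝ)
        linarith
      · show κ * r k ≤ ((Nat.log 2 m : ℕ) : ℝ) + 1
        have h8 : (m : ℝ) ≤ (2 : ℝ) ^ (Nat.log 2 m + 1) := by exact_mod_cast hj2.le
        have h9 : c / 2 * a ^ r k ≤ (2 : ℝ) ^ (Nat.log 2 m + 1) := hmge.trans h8
        have h10 := Real.log_le_log (by positivity) h9
        rw [Real.log_mul (by positivity) hap.ne', Real.log_rpow (by linarith), Real.log_pow] at h10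
        push_cast at h10
        have h11 : ((Nat.log 2 m : ℝ) + 1) * Real.log 2 ≤ (Nat.log 2 m : ℝ) + 1 := by
          have : (0 : ℝ) ≤ (Nat.log 2 m : ℝ) + 1 := by positivity
          nlinarith
        rw [hκ]
        linarith
    choose mm hmm using hch
    have h4 := h3.to_subtype
    refine Set.infinite_of_injective_forall_mem
      (f := fun k : I => (⟨k.1, mm k⟩ : Σ _ : ℕ, Σ j : ℕ, (F j : Set ℕ))) ?_ ?_
    · intro x y hxy
      exact Subtype.ext (congrArg Sigma.fst hxy)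
    · intro k
      exact hmm k
  · simp only [ENNReal.rpow_one]
    set M : ℝ := 8 * b * |C| / Real.log 2 ^ U * κ ^ (-(K + V)) with hM
    have hM0 : 0 ≤ M := by positivity
    have hterm : ∀ (k j : ℕ), (∑' n : (F j : Set ℕ), ediam (E ⟨k, ⟨j, n⟩⟩)) ≤
        ENNReal.ofReal (M * (r k ^ (-V) * (1 / ((j : ℝ) + 1) ^ 2))) := by
      intro k j
      by_cases hkj : κ * r k ≤ (j : ℝ) + 1
      swap
      · have h5 : ∀ n : (F j : Set ℕ), ediam (E ⟨k, ⟨j, n⟩⟩) = 0 := by
          intro n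
          have : E ⟨k, ⟨j, n⟩⟩ = ∅ := by
            rw [eq_empty_iff_forall_notMem]
            rintro α ⟨_, _, h6⟩
            exact hkj h6
          rw [this]
          simp
        simp only [h5, tsum_zero]
        exact zero_le
      have hrk := hr k
      have hwp : 0 < r k ^ K := Real.rpow_pos_of_pos (hr0 k) _
      have h5 : ∀ n : (F j : Set ℕ), ediam (E ⟨k, ⟨j, n⟩⟩) ≤ ENNReal.ofReal (4 * b * (r k ^ K / 2 ^ j)) := by
        rintro ⟨n, hn⟩
        rw [hF, Finset.mem_coe, Finset.mem_filter, Finset.mem_Ico] at hn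
        have hn1 : (2 : ℝ) ^ j ≤ n := by exact_mod_cast hn.1.1
        have hn0 : (0 : ℝ) < n := lt_of_lt_of_le (by positivity) hn1
        by_cases hwn : 2 * r k ^ K ≤ (n : ℝ)
        · refine (ediam_mono (t := {α : ℝ | 1 ≤ α ∧ α ≤ b ∧ |(n : ℝ) - c * α ^ (r k)| ≤ r k ^ K})
            (fun α hα => hα.1)).trans ((ediam_near hc0 hrk hn0 hwn hb0).trans ?_)
          refine ENNReal.ofReal_le_ofReal (mul_le_mul_of_nonneg_left ?_ (by positivity))
          exact div_le_div_of_nonneg_left hwp.le (by positivity) hn1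
        · have : E ⟨k, ⟨j, ⟨n, by rw [hF, Finset.mem_coe, Finset.mem_filter, Finset.mem_Ico]; exact hn⟩⟩⟩ = ∅ := by
            rw [eq_empty_iff_forall_notMem]
            rintro α ⟨_, h6, _⟩
            exact hwn h6
          rw [this]
          simp
      refine (ENNReal.tsum_le_tsum h5).trans ?_
      rw [tsum_fintype, Finset.sum_const, nsmul_eq_mul, Finset.card_univ]
      have h8 : Fintype.card (F j : Set ℕ) = (F j).card := by simp
      rw [h8, ← ENNReal.ofReal_natCast, ← ENNReal.ofReal_mul (Nat.cast_nonneg _)]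
      refine ENNReal.ofReal_le_ofReal ?_
      have h2j : 2 ≤ 2 ^ (j + 1) := by
        rw [pow_succ]
        have := Nat.one_le_two_pow (n := j)
        omega
      have h9 : ((F j).card : ℝ) ≤ |C| * 2 ^ (j + 1) / ((((j : ℝ) + 1) * Real.log 2) ^ U) := by
        have h10 := hC (2 ^ (j + 1)) h2j (F j) (fun n hn => by
          rw [hF, Finset.mem_filter, Finset.mem_Ico] at hn
          exact ⟨le_trans Nat.one_le_two_pow hn.1.1, hn.1.2.le, hn.2⟩)
        push_cast at h10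
        rw [Real.log_pow] at h10
        push_cast at h10
        refine h10.trans ?_
        have : 0 < (((j : ℝ) + 1) * Real.log 2) ^ U := by positivity
        refine div_le_div_of_nonneg_right ?_ this.le
        exact mul_le_mul_of_nonneg_right (le_abs_self C) (by positivity)
      have hj1 : (0 : ℝ) < (j : ℝ) + 1 := by positivity
      have e3 : (((j : ℝ) + 1) * Real.log 2) ^ U = ((j : ℝ) + 1) ^ (K + V) * ((j : ℝ) + 1) ^ 2 * Real.log 2 ^ U := by
        rw [Real.mul_rpow hj1.le hl2.le, hU, Real.rpow_add hj1 (K + V) 2]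
        congr 2
        exact_mod_cast Real.rpow_natCast ((j : ℝ) + 1) 2
      have h10 : κ ^ (K + V) * r k ^ (K + V) ≤ ((j : ℝ) + 1) ^ (K + V) := by
        rw [← Real.mul_rpow hκ0.le (hr0 k).le]
        exact Real.rpow_le_rpow (by have := hr0 k; positivity) hkj (by linarith)
      have hrV : 0 < r k ^ (K + V) := Real.rpow_pos_of_pos (hr0 k) _
      have hκV : 0 < κ ^ (K + V) := Real.rpow_pos_of_pos hκ0 _
      calc ((F j).card : ℝ) * (4 * b * (r k ^ K / 2 ^ j))
          ≤ (|C| * 2 ^ (j + 1) / ((((j : ℝ) + 1) * Real.log 2) ^ U)) * (4 * b * (r k ^ K / 2 ^ j)) :=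
            mul_le_mul_of_nonneg_right h9 (by positivity)
        _ = 8 * b * |C| / Real.log 2 ^ U * (r k ^ K / ((j : ℝ) + 1) ^ (K + V)) * (1 / ((j : ℝ) + 1) ^ 2) := by
            rw [e3, pow_succ]
            have h11 : ((j : ℝ) + 1) ^ (K + V) ≠ 0 := (Real.rpow_pos_of_pos hj1 _).ne'
            have h12 : Real.log 2 ^ U ≠ 0 := (Real.rpow_pos_of_pos hl2 _).ne'
            field_simp
            ring
        _ ≤ 8 * b * |C| / Real.log 2 ^ U * (r k ^ K / (κ ^ (K + V) * r k ^ (K + V))) *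
            (1 / ((j : ℝ) + 1) ^ 2) := by
            refine mul_le_mul_of_nonneg_right (mul_le_mul_of_nonneg_left ?_ (by positivity)) (by positivity)
            exact div_le_div_of_nonneg_left hwp.le (by positivity) h10
        _ = M * (r k ^ (-V) * (1 / ((j : ℝ) + 1) ^ 2)) := by
            rw [hM, Real.rpow_neg hκ0.le, Real.rpow_neg (hr0 k).le, Real.rpow_add (hr0 k) K V]
            have h11 : r k ^ K ≠ 0 := hwp.ne'
            have h12 : r k ^ V ≠ 0 := (Real.rpow_pos_of_pos (hr0 k) _).ne'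
            field_simp
    rw [ENNReal.tsum_sigma']
    simp_rw [ENNReal.tsum_sigma']
    have hj : Summable fun j : ℕ => (1 : ℝ) / ((j : ℝ) + 1) ^ 2 := by
      have := (_root_.summable_nat_add_iff 1).2 (Real.summable_one_div_nat_pow.2 (show 1 < 2 by norm_num))
      refine this.congr fun j => ?_
      push_cast
      rfl
    have hk : ∀ k : ℕ, (∑' j : ℕ, ∑' n : (F j : Set ℕ), ediam (E ⟨k, ⟨j, n⟩⟩)) ≤
        ENNReal.ofReal (M * r k ^ (-V) * ∑' j : ℕ, (1 : ℝ) / ((j : ℝ) + 1) ^ 2) := by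
      intro k
      have hrp : 0 ≤ M * r k ^ (-V) := by have := hr0 k; positivity
      refine (ENNReal.tsum_le_tsum (hterm k)).trans (le_of_eq ?_)
      rw [← _root_.tsum_mul_left, ENNReal.ofReal_tsum_of_nonneg]
      · exact tsum_congr fun j => by congr 1; ring
      · intro j
        positivity
      · exact hj.mul_left _
    refine ne_top_of_le_ne_top ?_ (ENNReal.tsum_le_tsum hk)
    exact ((hsum.mul_left M).mul_right _).tsum_ofReal_ne_top

/-- The property `P` of natural numbers holds near the powers of almost all real numbers: for every countable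
set `Γ` of positive real numbers, every `K ≥ 0` and all real exponents `r k ≥ 1` with `∑ r k ^ (-V) < ∞` for
some `V > 0` (for example `r k = k ^ δ`, `δ > 0`, `k ≥ 1`), for almost every real `α > 1`, every `c ∈ Γ` and every
large `k`, ALL natural numbers `m` with `|m - c α ^ (r k)| ≤ (r k) ^ K` have the property `P`. -/
def NearRealPowers (P : ℕ → Prop) : Prop :=
  ∀ (Γ : Set ℝ) (K V : ℝ) (r : ℕ → ℝ), Γ.Countable → (∀ c ∈ Γ, 0 < c) → 0 ≤ K → 0 < V → (∀ k, 1 ≤ r k) →
    Summable (fun k => r k ^ (-V)) →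
    ∀ᵐ α : ℝ, 1 < α → ∀ c ∈ Γ, ∀ᶠ k : ℕ in atTop, ∀ m : ℕ, |(m : ℝ) - c * α ^ (r k)| ≤ r k ^ K → P m

theorem near_of_log {P B : ℕ → Prop} (h : LogFew B) (hB : ∀ n, n ≠ 0 → ¬ B n → P n) : NearRealPowers P := by
  intro Γ K V r hΓ hpos hK hV hr hsum
  have := hΓ.to_subtype
  have key : ∀ (c : Γ) (j : ℕ), volume {α : ℝ | 1 + 1 / ((j : ℝ) + 1) ≤ α ∧ α ≤ 1 + 1 / ((j : ℝ) + 1) + j ∧
      ¬ ∀ᶠ k : ℕ in atTop, ∀ m : ℕ, |(m : ℝ) - c * α ^ (r k)| ≤ r k ^ K → m ≠ 0 ∧ ¬ B m} = 0 := by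
    intro c j
    refine log_null_interval B _ _ c K V h ?_ ?_ (hpos c c.2) hK hV r hr hsum
    · have : 0 < 1 / ((j : ℝ) + 1) := by positivity
      linarith
    · have : (0 : ℝ) ≤ j := Nat.cast_nonneg _
      linarith
  have h1 := measure_iUnion_null fun c : Γ => measure_iUnion_null (key c)
  rw [ae_iff]
  refine measure_mono_null ?_ h1
  intro α hα
  have hα' : ¬ (1 < α → ∀ c ∈ Γ, ∀ᶠ k : ℕ in atTop, ∀ m : ℕ, |(m : ℝ) - c * α ^ (r k)| ≤ r k ^ K → P m) := hα
  rw [Classical.not_imp] at hα'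
  obtain ⟨hα1, hα2⟩ := hα'
  have hα3' : ∃ c, ∃ _ : c ∈ Γ, ¬ ∀ᶠ k : ℕ in atTop, ∀ m : ℕ, |(m : ℝ) - c * α ^ (r k)| ≤ r k ^ K → P m := by
    by_contra hcon
    refine hα2 fun c hc => ?_
    by_contra h5
    exact hcon ⟨c, hc, h5⟩
  obtain ⟨c, hcΓ, hα3⟩ := hα3'
  have hlim : Tendsto (fun j : ℕ => 1 + 1 / ((j : ℝ) + 1)) atTop (𝓝 (1 + 0)) :=
    tendsto_one_div_add_atTop_nhds_zero_nat.const_add 1
  rw [add_zero] at hlim
  have h2 : ∀ᶠ j : ℕ in atTop, 1 + 1 / ((j : ℝ) + 1) < α := hlim.eventually_lt_const hα1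
  obtain ⟨J, hJ⟩ := exists_nat_ge α
  obtain ⟨j, hj1, hj2⟩ := (h2.and (eventually_ge_atTop J)).exists
  refine mem_iUnion.2 ⟨⟨c, hcΓ⟩, mem_iUnion.2 ⟨j, hj1.le, ?_, fun hcon => ?_⟩⟩
  · have h3 : (J : ℝ) ≤ j := by exact_mod_cast hj2
    have h4 : 0 < 1 / ((j : ℝ) + 1) := by positivity
    linarith
  · refine hα3 ?_
    filter_upwards [hcon] with k hk m hm
    exact hB m (hk m hm).1 (hk m hm).2

end Pool.Agent.Q116.RP
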